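import Pool.Agent.Helper23.MV.StL

/-!
# Project MV, DEN: densities
-/

set_option autoImplicit false

namespace Pool.Agent.Helper80.MV

open Finset
open Pool.Agent.Helper23.MV

private theorem card_coprime_DEN (r s : ℕ) :
    #((Ioc 0 (r * s)).filter (fun k => Nat.Coprime k r)) = s * r.totient := by
  induction s with
  | zero => simp
  | succ s ih =>
    have h1 : Ioc 0 (r * (s + 1)) = Ioc 0 (r * s) ∪ Ico (r * s + 1) (r * s + 1 + r) := by
      ext k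
      simp only [mem_Ioc, mem_union, mem_Ico]
      rw [Nat.mul_succ]
      omega
    have h2 : Disjoint ((Ioc 0 (r * s)).filter (fun k => Nat.Coprime k r))
        ((Ico (r * s + 1) (r * s + 1 + r)).filter (fun k => Nat.Coprime k r)) := by
      refine disjoint_filter_filter ?_
      rw [disjoint_left]
      intro k hk
      simp only [mem_Ioc, mem_Ico] at hk ⊢
      omega
    have h3 : #((Ico (r * s + 1) (r * s + 1 + r)).filter (fun k => Nat.Coprime k r)) =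
        r.totient := by
      rw [← Nat.filter_coprime_Ico_eq_totient r (r * s + 1)]
      congr 1
      refine filter_congr (fun k _ => ?_)
      exact Nat.coprime_comm
    rw [h1, filter_union, card_union_of_disjoint h2, ih, h3]
    ring

private theorem card_mul_DEN (D r t : ℕ) (hD : 0 < D) (hDt : D ∣ t) :
    #((Ioc 0 (r * t)).filter (fun n => D ∣ n ∧ Nat.Coprime n r)) =
      if Nat.Coprime D r then t / D * r.totient else 0 := by
  obtain ⟨s, rfl⟩ := hDt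
  rw [Nat.mul_div_cancel_left _ hD]
  split_ifs with hc
  · rw [← card_coprime_DEN r s]
    have h1 : (Ioc 0 (r * (D * s))).filter (fun n => D ∣ n ∧ Nat.Coprime n r) =
        ((Ioc 0 (r * s)).filter (fun k => Nat.Coprime k r)).image (fun k => D * k) := by
      ext n
      simp only [mem_filter, mem_Ioc, mem_image]
      constructor
      · rintro ⟨⟨h1, h2⟩, ⟨k, rfl⟩, h3⟩
        refine ⟨k, ⟨⟨Nat.pos_of_mul_pos_left h1, ?_⟩, Nat.Coprime.coprime_mul_left h3⟩, rfl⟩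
        have h4 : D * k ≤ D * (r * s) := by
          calc D * k ≤ r * (D * s) := h2
            _ = D * (r * s) := by ring
        exact Nat.le_of_mul_le_mul_left h4 hD
      · rintro ⟨k, ⟨⟨h1, h2⟩, h3⟩, rfl⟩
        refine ⟨⟨Nat.mul_pos hD h1, ?_⟩, Dvd.intro _ rfl, Nat.Coprime.mul_left hc h3⟩
        calc D * k ≤ D * (r * s) := Nat.mul_le_mul_left _ h2
          _ = r * (D * s) := by ring
    rw [h1, card_image_of_injective]
    intro a b hab
    exact Nat.eq_of_mul_eq_mul_left hD hab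
  · rw [card_eq_zero, filter_eq_empty_iff]
    rintro n _ ⟨h1, h2⟩
    exact hc (Nat.Coprime.coprime_dvd_left h1 h2)

/-- the sums over `n` -/
private theorem sum_sq_DEN (θ : ℕ → ℝ) (z : ℕ) (I : Finset ℕ) (P : ℕ → Prop) [DecidablePred P] :
    ∑ n ∈ I.filter P, (∑ d ∈ Icc 1 z, if d ∣ n then θ d else 0) ^ 2 =
      ∑ d₁ ∈ Icc 1 z, ∑ d₂ ∈ Icc 1 z, θ d₁ * θ d₂ *
        (#(I.filter (fun n => Nat.lcm d₁ d₂ ∣ n ∧ P n)) : ℝ) := by
  have h1 : ∀ n, (∑ d ∈ Icc 1 z, if d ∣ n then θ d else 0) ^ 2 =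
      ∑ d₁ ∈ Icc 1 z, ∑ d₂ ∈ Icc 1 z, (if Nat.lcm d₁ d₂ ∣ n then θ d₁ * θ d₂ else 0) := by
    intro n
    rw [sq, sum_mul_sum]
    refine sum_congr rfl (fun d₁ _ => sum_congr rfl (fun d₂ _ => ?_))
    by_cases h1 : d₁ ∣ n
    · by_cases h2 : d₂ ∣ n
      · rw [if_pos h1, if_pos h2, if_pos (Nat.lcm_dvd h1 h2)]
      · rw [if_neg h2, mul_zero, if_neg (fun h => h2 (dvd_trans (Nat.dvd_lcm_right _ _) h))]
    · rw [if_neg h1, zero_mul, if_neg (fun h => h1 (dvd_trans (Nat.dvd_lcm_left _ _) h))]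
  rw [sum_congr rfl (fun n _ => h1 n), sum_comm]
  refine sum_congr rfl (fun d₁ _ => ?_)
  rw [sum_comm]
  refine sum_congr rfl (fun d₂ _ => ?_)
  rw [← sum_filter, sum_const, nsmul_eq_mul, filter_filter, mul_comm]
  congr 3
  refine filter_congr (fun n _ => ?_)
  exact and_comm

/-- DEN -/
theorem hDen : StDen := by
  intro θ z r hr _
  set t : ℕ := z.factorial with ht
  have ht0 : 0 < t := Nat.factorial_pos z
  have hM : (0 : ℝ) < (r : ℝ) * t := by positivity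
  have hr0 : (r : ℝ) ≠ 0 := by positivity
  have hlcm : ∀ d₁ ∈ Icc 1 z, ∀ d₂ ∈ Icc 1 z, Nat.lcm d₁ d₂ ∣ t ∧ 0 < Nat.lcm d₁ d₂ := by
    intro d₁ h1 d₂ h2
    rw [mem_Icc] at h1 h2
    exact ⟨Nat.lcm_dvd (Nat.dvd_factorial (by omega) h1.2) (Nat.dvd_factorial (by omega) h2.2),
      Nat.lcm_pos (by omega) (by omega)⟩
  have hA := sum_sq_DEN θ z (Ioc 0 (r * t)) (fun n => Nat.Coprime n r)
  have hB := sum_sq_DEN θ z (Ioc 0 (r * t)) (fun _ => True)
  have hA' : ∑ n ∈ (Ioc 0 (r * t)).filter (fun n => Nat.Coprime n r),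
      (∑ d ∈ Icc 1 z, if d ∣ n then θ d else 0) ^ 2 = (r : ℝ) * t *
      ((r.totient : ℝ) / r * ∑ d₁ ∈ Icc 1 z, ∑ d₂ ∈ Icc 1 z,
      (if Nat.Coprime (Nat.lcm d₁ d₂) r then θ d₁ * θ d₂ / Nat.lcm d₁ d₂ else 0)) := by
    rw [hA, mul_sum, mul_sum]
    refine sum_congr rfl (fun d₁ h1 => ?_)
    rw [mul_sum, mul_sum]
    refine sum_congr rfl (fun d₂ h2 => ?_)
    obtain ⟨hd, h0⟩ := hlcm d₁ h1 d₂ h2
    rw [card_mul_DEN _ _ _ h0 hd]
    split_ifs with hc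
    · have h3 : ((Nat.lcm d₁ d₂ : ℕ) : ℝ) ≠ 0 := by positivity
      rw [Nat.cast_mul, Nat.cast_div hd h3]
      field_simp
    · simp
  have hB' : ∑ n ∈ (Ioc 0 (r * t)).filter (fun _ => True),
      (∑ d ∈ Icc 1 z, if d ∣ n then θ d else 0) ^ 2 = (r : ℝ) * t *
      ∑ d₁ ∈ Icc 1 z, ∑ d₂ ∈ Icc 1 z, θ d₁ * θ d₂ / Nat.lcm d₁ d₂ := by
    rw [hB, mul_sum]
    refine sum_congr rfl (fun d₁ h1 => ?_)
    rw [mul_sum]
    refine sum_congr rfl (fun d₂ h2 => ?_)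
    obtain ⟨hd, h0⟩ := hlcm d₁ h1 d₂ h2
    have h3 : ((Nat.lcm d₁ d₂ : ℕ) : ℝ) ≠ 0 := by positivity
    have h4 : #((Ioc 0 (r * t)).filter (fun n => Nat.lcm d₁ d₂ ∣ n ∧ True)) =
        r * t / Nat.lcm d₁ d₂ := by
      simp only [and_true]
      exact Nat.Ioc_filter_dvd_card_eq_div _ _
    rw [h4, Nat.cast_div (Dvd.dvd.mul_left hd r) h3, Nat.cast_mul]
    field_simp
  have hle : ∑ n ∈ (Ioc 0 (r * t)).filter (fun n => Nat.Coprime n r),
      (∑ d ∈ Icc 1 z, if d ∣ n then θ d else 0) ^ 2 ≤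
      ∑ n ∈ (Ioc 0 (r * t)).filter (fun _ => True),
      (∑ d ∈ Icc 1 z, if d ∣ n then θ d else 0) ^ 2 := by
    refine sum_le_sum_of_subset_of_nonneg ?_ (fun n _ _ => sq_nonneg _)
    intro n hn
    rw [mem_filter] at hn ⊢
    exact ⟨hn.1, trivial⟩
  have h0 : 0 ≤ ∑ n ∈ (Ioc 0 (r * t)).filter (fun n => Nat.Coprime n r),
      (∑ d ∈ Icc 1 z, if d ∣ n then θ d else 0) ^ 2 := sum_nonneg (fun n _ => sq_nonneg _)
  rw [hA'] at h0 hle
  rw [hB'] at hle
  exact ⟨nonneg_of_mul_nonneg_right h0 hM, le_of_mul_le_mul_left hle hM⟩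

end Pool.Agent.Helper80.MV
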